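import Mathlib

/-! Numerical facts for the linear classification. -/

namespace Pool.Agent.MP_f0649b_al.Cls

theorem b1 {a : ℕ} (h : 3 ≤ a) : 2 * a < 2 ^ a := by
  induction a, h using Nat.le_induction with
  | base => norm_num
  | succ n hn ih => rw [pow_succ]; omega

theorem b2 {a : ℕ} (h : 7 ≤ a) : 2 * a * a < 2 ^ a := by
  induction a, h using Nat.le_induction with
  | base => norm_num
  | succ n hn ih => rw [pow_succ]; nlinarith

theorem b3 {a : ℕ} (h : 4 ≤ a) : 2 * a * (2 * a) < 3 ^ a := by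
  induction a, h using Nat.le_induction with
  | base => norm_num
  | succ n hn ih => rw [pow_succ]; nlinarith

theorem b5 {a : ℕ} (h : 1 ≤ a) : 2 * a * (2 * a) < 5 ^ a := by
  rcases h.eq_or_lt with rfl | h
  · norm_num
  · induction a, h using Nat.le_induction with
    | base => norm_num
    | succ n hn ih =>
      have := ih (by omega)
      rw [pow_succ]; nlinarith

theorem numA {q a d f D : ℕ} (hq : 2 ≤ q) (ha : 1 ≤ a) (h1 : q ^ a ≤ d) (h2 : d ≤ f)
    (hD : 0 < D) (h3 : f * D ≤ 2 * a) :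
    q = 2 ∧ ((a = 1 ∧ d = 2 ∧ f = 2) ∨ (a = 2 ∧ d = 4 ∧ f = 4)) := by
  have h4 : f ≤ 2 * a := le_trans (Nat.le_mul_of_pos_right f hD) h3
  have h5 : 2 ^ a ≤ q ^ a := Nat.pow_le_pow_left hq a
  have h6 : a ≤ 2 := by
    by_contra h
    have := b1 (a := a) (by omega)
    omega
  interval_cases a
  · rw [pow_one] at h1
    omega
  · have : q = 2 := by nlinarith
    subst this
    omega

theorem numB0 {f i n D a : ℕ} (h3 : i * n ≤ D) (h4 : f * D ≤ 2 * a) :
    f * i * n ^ 2 ≤ 2 * a * n := by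
  calc f * i * n ^ 2 = f * (i * n) * n := by ring
    _ ≤ f * D * n := by gcongr
    _ ≤ 2 * a * n := by gcongr

theorem pow_small {s e b : ℕ} (c : ℕ) (hs : 1 ≤ s) (h : s ^ e ≤ b) (hb : b < s ^ (c + 1)) :
    s ^ e ≤ s ^ c := by
  refine Nat.pow_le_pow_right hs ?_
  by_contra h'
  have := Nat.pow_le_pow_right hs (show c + 1 ≤ e by omega)
  omega

/-- the case of odd characteristic -/
theorem numB {q a d f i s e D : ℕ} (hq : q.Prime) (hq2 : q ≠ 2) (ha : 1 ≤ a) (hs : s.Prime)
    (hsq : s ≠ q) (h0 : q ^ a ∣ d) (hd : 0 < d) (h2 : d ≤ f * i * (s ^ e) ^ 2)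
    (h3 : i * s ^ e ≤ D) (h4 : f * D ≤ 2 * a) (h5 : s ∣ 2 * a) :
    q = 3 ∧ s = 2 ∧ f = 1 ∧ i = 1 ∧
      ((a = 1 ∧ d = 3 ∧ s ^ e = 2) ∨ (a = 2 ∧ d = 9 ∧ s ^ e = 4 ∧ D = 4)) := by
  have h1 : q ^ a ≤ d := Nat.le_of_dvd hd h0
  have h6 := numB0 h3 h4
  have hf : 0 < f := Nat.pos_of_ne_zero fun e => by rw [e] at h2; omega
  have hi : 0 < i := Nat.pos_of_ne_zero fun e => by rw [e] at h2; omega
  have h7 : s ^ e ≤ D := le_trans (Nat.le_mul_of_pos_left _ hi) h3
  have h8 : D ≤ 2 * a := le_trans (Nat.le_mul_of_pos_left _ hf) h4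
  have h9 : 2 * a * s ^ e ≤ 2 * a * (2 * a) := by gcongr; omega
  have hq3 : q = 3 := by
    by_contra h
    have : 5 ≤ q := by
      have := hq.two_le
      by_contra h'
      have : q = 4 := by omega
      rw [this] at hq
      exact absurd hq (by norm_num)
    have := Nat.pow_le_pow_left this a
    have := b5 ha
    omega
  subst hq3
  have ha3 : a ≤ 3 := by
    by_contra h
    have := b3 (a := a) (by omega)
    omega
  have hs2 : s = 2 := by
    have := hs.two_le
    have := Nat.le_of_dvd (by omega) h5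
    have : s ≤ 6 := by omega
    interval_cases s
    · rfl
    · omega
    · exact absurd hs (by norm_num)
    · omega
    · exact absurd hs (by norm_num)
  subst hs2
  have h10 : 2 ^ e ≤ 2 ^ 2 := pow_small 2 (by norm_num) (h7.trans h8) (by omega)
  have h11 : 2 ^ e ≠ 3 := fun h => by
    have : 3 ∣ 2 ^ e := h ▸ dvd_rfl
    exact absurd (Nat.prime_three.dvd_of_dvd_pow this) (by norm_num)
  generalize 2 ^ e = n at *
  have h12 : f * (i * n) ≤ 2 * a := le_trans (by gcongr) h4
  have h13 : f * i * n ^ 2 = f * (i * n) * n := by ring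
  interval_cases a
  · have hn : n = 2 := by
      have : n ≤ 2 := by omega
      interval_cases n <;> omega
    subst hn
    have : f = 1 := by nlinarith
    subst this
    have : i = 1 := by omega
    subst this
    omega
  · have hn : n = 4 := by interval_cases n <;> omega
    subst hn
    have : f = 1 := by nlinarith
    subst this
    have : i = 1 := by omega
    subst this
    omega
  · omega

/-- the case of characteristic two -/
theorem numC {a d f i s e D : ℕ} (hs : s.Prime) (hs2 : s ≠ 2) (h0 : 2 ^ a ∣ d) (hd : 0 < d)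
    (h2 : d ≤ f * i * (s ^ e) ^ 2) (h3 : i * s ^ e ≤ D) (h4 : f * D ≤ 2 * a) (h5 : s ∣ 2 * a)
    (h6 : D ≤ a) (h7 : s ∣ D) (h8 : s = 5 → 3 * D ≤ 2 * a) (ha : 1 ≤ a) :
    a = 3 ∧ s = 3 ∧ (d = 8 ∨ d = 16) ∧ f * i * (s ^ e) ^ 2 ≤ 18 := by
  have h1 : 2 ^ a ≤ d := Nat.le_of_dvd hd h0
  have h9 := numB0 h3 h4
  have hi : 0 < i := Nat.pos_of_ne_zero fun e => by rw [e] at h2; omega
  have h10 : s ^ e ≤ D := le_trans (Nat.le_mul_of_pos_left _ hi) h3
  have hD : 0 < D := lt_of_lt_of_le (pow_pos hs.pos e) h10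
  have h11 : 2 * a * s ^ e ≤ 2 * a * a := by gcongr; omega
  have ha6 : a ≤ 6 := by
    by_contra h
    have := b2 (a := a) (by omega)
    omega
  have h12 := Nat.le_of_dvd hD h7
  have h13 := hs.two_le
  have h14 : s ≤ 6 := by omega
  interval_cases s
  · omega
  · have h15 : 3 ^ e ≤ 3 ^ 1 := pow_small 1 (by norm_num) h10 (by omega)
    interval_cases a <;> omega
  · exact absurd hs (by norm_num)
  · have := h8 rfl
    omega
  · exact absurd hs (by norm_num)

end Pool.Agent.MP_f0649b_al.Cls
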