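import Pool.Agent.MP_f0649b_al.Cls.Eig
import Pool.Agent.MP_f0649b_al.Cls.Num

/-! The linear classification on the model. -/

open Module
open scoped commutatorElement

namespace Pool.Agent.MP_f0649b_al.Cls

open F

variable {k T : Type} [Field k] [Group T] (W : Rp k T)

theorem comm_of_triv {J : Subgroup T} (hJ : Triv W.ρ ⁅J, J⁆) {a b : T} (ha : a ∈ J) (hb : b ∈ J) :
    W.ρ a * W.ρ b = W.ρ b * W.ρ a := by
  have h := hJ _ (Subgroup.commutator_mem_commutator ha hb)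
  have e : a * b = ⁅a, b⁆ * (b * a) := by rw [commutatorElement_def]; group
  rw [← map_mul, e, map_mul, h, one_mul, map_mul]

/-- the elements of `J` whose `s`-th power acts trivially -/
def tor (J : Subgroup T) (hJ : Triv W.ρ ⁅J, J⁆) (s : ℕ) : Subgroup T where
  carrier := {y | y ∈ J ∧ W.ρ (y ^ s) = 1}
  one_mem' := ⟨J.one_mem, by rw [one_pow, map_one]⟩
  mul_mem' := fun {a b} ha hb => ⟨J.mul_mem ha.1 hb.1, by
    have h : Commute (W.ρ a) (W.ρ b) := comm_of_triv W hJ ha.1 hb.1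
    rw [map_pow, map_mul, h.mul_pow, ← map_pow, ← map_pow, ha.2, hb.2, mul_one]⟩
  inv_mem' := fun {a} ha => ⟨J.inv_mem ha.1, by
    have h : W.ρ (a⁻¹ ^ s) * W.ρ (a ^ s) = 1 := by rw [← map_mul, inv_pow, inv_mul_cancel, map_one]
    rwa [ha.2, mul_one] at h⟩

instance tor_normal (J : Subgroup T) [hn : J.Normal] (hJ : Triv W.ρ ⁅J, J⁆) (s : ℕ) :
    (tor W J hJ s).Normal :=
  ⟨fun a ha g => ⟨hn.conj_mem a ha.1 g, by
    rw [conj_pow, map_mul, map_mul, ha.2, mul_one, ← map_mul, mul_inv_cancel, map_one]⟩⟩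

theorem exists_tor [Finite T] {J : Subgroup T} (hJ : Triv W.ρ ⁅J, J⁆) (h : ∃ y ∈ J, W.ρ y ≠ 1) :
    ∃ s : ℕ, s.Prime ∧ ∃ y ∈ tor W J hJ s, W.ρ y ≠ 1 := by
  obtain ⟨y, hy, h1⟩ := h
  have h2 : IsOfFinOrder (W.ρ y) := MonoidHom.isOfFinOrder W.ρ (isOfFinOrder_of_finite y)
  have h3 : orderOf (W.ρ y) ≠ 1 := fun e => h1 (orderOf_eq_one_iff.1 e)
  obtain ⟨s, hs, m, hm⟩ := Nat.exists_prime_and_dvd h3
  have h4 := h2.orderOf_pos
  refine ⟨s, hs, y ^ m, ⟨J.pow_mem hy m, ?_⟩, fun e => ?_⟩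
  · rw [← pow_mul, mul_comm, ← hm, map_pow, pow_orderOf_eq_one]
  · rw [map_pow] at e
    have h5 := Nat.le_of_dvd (Nat.pos_of_ne_zero fun e' => by rw [e'] at hm; omega)
      (orderOf_dvd_of_pow_eq_one e)
    have := hs.two_le
    nlinarith

/-- the conclusion about an irreducible complex representation -/
def Tau0 (n : ℕ) : Prop := ∃ τ : Rp ℂ T, Irr τ.ρ ∧ τ.dim = n ∧ ∀ g, W.ρ g = 1 → τ.ρ g = 1

/-- the hypotheses on the model -/
structure Hyp (J : Subgroup T) (Sm : ℕ → Prop) (q a d : ℕ) : Prop where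
  prime : q.Prime
  apos : 0 < a
  dim : W.dim = 2 * a
  frob : ∀ (A : Subgroup T) (l : T → kˣ),
    finrank k (Eig W.ρ A l) ≤ finrank k (Eig W.ρ A fun g => l g ^ q)
  chr : ∀ c : kˣ, c ^ q = 1 → c = 1
  cast : ∀ s : ℕ, s.Prime → s ≠ q → (s : k) ≠ 0
  fix : ∀ J : Subgroup T, J.Normal → (∃ y ∈ J, W.ρ y ≠ 1) → ∀ v, (∀ y ∈ J, W.ρ y v = v) → v = 0
  ab : Triv W.ρ ⁅J, J⁆
  ne : ∃ y ∈ J, W.ρ y ≠ 1
  pre : PreH J Sm
  mono : ∀ n m, Sm n → n ≤ m → Sm m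
  low : ∀ n, Sm n → d ≤ n
  dvd : q ^ a ∣ d
  dpos : 0 < d

variable {W} {J : Subgroup T} {Sm : ℕ → Prop} {q a d : ℕ}

/-- the analysis of one eigencharacter -/
theorem Hyp.key [IsAlgClosed k] [Finite T] [Group.IsSolvable T] (H : Hyp W J Sm q a d)
    (hfs : FS_st) (hth : TH_st) (hdet : DET_st) {s : ℕ} (hs : s.Prime)
    (hy : ∃ y ∈ tor W J H.ab s, W.ρ y ≠ 1) [J.Normal] (A : Subgroup T) [A.Normal]
    (h1 : tor W J H.ab s ≤ A) (h2 : A ≤ J) {l : T → kˣ} (hl : IsChar A l)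
    (hE : Eig W.ρ A l ≠ ⊥) :
    ∃ y ∈ tor W J H.ab s, l y ≠ 1 ∧ l y ^ s = 1 ∧ ∃ (z : ℂ) (D : LD W y z) (i e : ℕ), z ≠ 1 ∧
      z ^ s = 1 ∧ D.φ.range.index = (stl A l).index * i ∧ D.M.dim = s ^ e ∧
      i * s ^ e ≤ finrank k (Eig W.ρ A l) ∧ (¬ s ∣ finrank k (Eig W.ρ A l) → i = 1 ∧ e = 0) ∧
      Sm ((stl A l).index * i * (s ^ e) ^ 2) := by
  obtain ⟨v, hv, hv0⟩ := (Submodule.ne_bot_iff _).1 hE
  obtain ⟨y, hy1, hy2⟩ : ∃ y ∈ tor W J H.ab s, l y ≠ 1 := by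
    by_contra h
    push Not at h
    exact hv0 (H.fix _ inferInstance hy v fun y hy => by
      rw [hv y (h1 hy), h y hy, Units.val_one, one_smul])
  have hy3 : l y ^ s = 1 := eig_pow W hl hE (h1 hy1) hy1.2
  obtain ⟨z, D, i, e, a1, a2, a3, a4, a5, a6, a7⟩ := exists_LD (W := W) (y := y) hfs hth hdet hs
    (stl A l) _ hE (inv_stl W A l) (fun g hg => mem_stl W hE fun a _ => by rw [hg, mul_one, one_mul])
    (mem_stl W hE fun a ha => comm_of_triv W H.ab (h2 ha) hy1.1) (fun v hv => hv y (h1 hy1)) hy2 hy3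
  refine ⟨y, hy1, hy2, hy3, z, D, i, e, a1, a2, a3, a4, a5, fun h => ⟨a7 h, ?_⟩, ?_⟩
  · by_contra he
    exact h ((dvd_pow_self s he).trans a6)
  · have := D.sm H.pre H.ab hy1.1 a1 (by rw [a4]; exact pow_pos hs.pos e)
    rwa [a3, a4] at this

theorem Hyp.eigv [IsAlgClosed k] (H : Hyp W J Sm q a d) (h0 : L0) (A : Subgroup T) (h2 : A ≤ J) :
    ∃ l : T → kˣ, IsChar A l ∧ Eig W.ρ A l ≠ ⊥ := by
  have : Nontrivial W.V := Module.nontrivial_of_finrank_pos (R := k) (by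
    rw [← W.dim_def, H.dim]; have := H.apos; omega)
  obtain ⟨l, h3, h4⟩ := h0.eigv W.ρ A ⊤ top_ne_bot (fun _ _ _ _ => trivial) fun a ha b hb v _ =>
    LinearMap.congr_fun (comm_of_triv W H.ab (h2 ha) (h2 hb)) v
  exact ⟨l, h3, by rwa [inf_top_eq] at h4⟩

theorem Hyp.two (H : Hyp W J Sm 2 a d) (h0 : L0) (A : Subgroup T) {l : T → kˣ} {y : T}
    (hy : y ∈ A) (h1 : l y ≠ 1) :
    finrank k (Eig W.ρ A l) ≤ a ∧
      (a ≤ finrank k (Eig W.ρ A l) → Eig W.ρ A l ⊔ (Eig W.ρ A fun g => l g ^ 2) = ⊤) := by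
  have h2 : l y ≠ l y ^ 2 := fun e => h1 (by rwa [pow_two, left_eq_mul] at e)
  obtain ⟨a1, a2⟩ := eig_sum W h0 A ![l, fun g => l g ^ 2] hy (fun i j e => by
    fin_cases i <;> fin_cases j
    · rfl
    · exact absurd e h2
    · exact absurd e.symm h2
    · rfl) (finrank k (Eig W.ρ A l)) fun i => by
      fin_cases i
      · exact le_rfl
      · exact H.frob A l
  rw [H.dim, Fintype.card_fin] at a1 a2
  refine ⟨by omega, fun h => ?_⟩
  rw [eq_top_iff, ← a2 (by omega), iSup_le_iff]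
  intro i
  fin_cases i
  · exact le_sup_left
  · exact le_sup_right

theorem Hyp.three (H : Hyp W J Sm 2 a d) (h0 : L0) (A : Subgroup T) {l : T → kˣ} {y : T}
    (hy : y ∈ A) (h1 : l y ≠ 1) (h5 : l y ^ 5 = 1) : 3 * finrank k (Eig W.ρ A l) ≤ 2 * a := by
  have h2 : ∀ n, n.Coprime 5 → l y ^ n ≠ 1 := fun n hn e => h1 (by
    have := pow_gcd_eq_one.2 ⟨e, h5⟩
    rwa [hn.gcd_eq_one, pow_one] at this)
  have b1 : l y ≠ l y ^ 2 := fun e => h1 (by rwa [pow_two, left_eq_mul] at e)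
  have b2 : l y ≠ (l y ^ 2) ^ 2 := fun e => h2 3 (by norm_num) (by
    rwa [← pow_mul, show 2 * 2 = 3 + 1 from rfl, pow_succ', left_eq_mul] at e)
  have b3 : l y ^ 2 ≠ (l y ^ 2) ^ 2 := fun e => h2 2 (by norm_num) (by
    rwa [pow_two (l y ^ 2), left_eq_mul] at e)
  obtain ⟨a1, -⟩ := eig_sum W h0 A ![l, fun g => l g ^ 2, fun g => (l g ^ 2) ^ 2] hy
    (fun i j e => by
      fin_cases i <;> fin_cases j
      · rfl
      · exact absurd e b1
      · exact absurd e b2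
      · exact absurd e.symm b1
      · rfl
      · exact absurd e b3
      · exact absurd e.symm b2
      · exact absurd e.symm b3
      · rfl) (finrank k (Eig W.ρ A l)) fun i => by
      fin_cases i
      · exact le_rfl
      · exact H.frob A l
      · exact (H.frob A l).trans (H.frob A _)
  rwa [H.dim, Fintype.card_fin] at a1

theorem cube_cases {w u : kˣ} (hw : w ≠ 1) (hw3 : w ^ 3 = 1) (hu : u ^ 3 = 1) :
    u = 1 ∨ u = w ∨ u = w ^ 2 := by
  have a1 : (w : k) - 1 ≠ 0 := sub_ne_zero.2 fun e => hw (Units.ext e)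
  have a2 : (w : k) ^ 3 = 1 := by rw [← Units.val_pow_eq_pow_val, hw3, Units.val_one]
  have a3 : (u : k) ^ 3 = 1 := by rw [← Units.val_pow_eq_pow_val, hu, Units.val_one]
  have a4 : (w : k) ^ 2 + w + 1 = 0 := mul_left_cancel₀ a1 (by linear_combination a2)
  have a5 : ((u : k) - 1) * ((u - w) * (u - w ^ 2)) = 0 := by
    linear_combination a3 + (u - 1) * a2 - (u - 1) * u * a4
  rcases mul_eq_zero.1 a5 with e | e
  · exact Or.inl (Units.ext (sub_eq_zero.1 e))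
  · rcases mul_eq_zero.1 e with e | e
    · exact Or.inr (Or.inl (Units.ext (sub_eq_zero.1 e)))
    · exact Or.inr (Or.inr (Units.ext (by rw [Units.val_pow_eq_pow_val]; exact sub_eq_zero.1 e)))

/-- the structure of the group in the third type -/
theorem Hyp.t3 [IsAlgClosed k] [Finite T] [Group.IsSolvable T] (H : Hyp W J Sm 2 3 d) (h0 : L0)
    (hfs : FS_st) (hth : TH_st) (hdet : DET_st) [J.Normal]
    (hy : ∃ y ∈ tor W J H.ab 3, W.ρ y ≠ 1) :
    ∃ y ∈ J, W.ρ y ≠ 1 ∧ W.ρ (y ^ 3) = 1 ∧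
      ∀ u ∈ J, W.ρ u = W.ρ 1 ∨ W.ρ u = W.ρ y ∨ W.ρ u = W.ρ (y ^ 2) := by
  obtain ⟨l, hl, hE⟩ := H.eigv h0 J le_rfl
  obtain ⟨y, y1, y2, y3, z, D, i, e, -, -, -, -, -, a1, a2⟩ :=
    H.key hfs hth hdet Nat.prime_three hy J (fun _ h => h.1) le_rfl hl hE
  have hD : 0 < finrank k (Eig W.ρ J l) :=
    Nat.pos_of_ne_zero fun e => hE (Submodule.finrank_eq_zero.1 e)
  have h3 : 3 ∣ finrank k (Eig W.ρ J l) := by
    by_contra h
    obtain ⟨rfl, rfl⟩ := a1 h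
    have b1 := H.low _ a2
    have b2 := stl_index W h0 J l
    have b3 := Nat.le_of_dvd H.dpos H.dvd
    rw [H.dim] at b2
    have := Nat.le_mul_of_pos_right (stl J l).index hD
    omega
  have hs := (H.two h0 J y1.1 y2).2 (Nat.le_of_dvd hD h3)
  have hext : ∀ f g : Module.End k W.V, (∀ v ∈ Eig W.ρ J l, f v = g v) →
      (∀ v ∈ Eig W.ρ J fun g => l g ^ 2, f v = g v) → f = g := fun f g b1 b2 =>
    LinearMap.ext fun v => by
      obtain ⟨v1, c1, v2, c2, rfl⟩ := Submodule.mem_sup.1 (hs.ge (Submodule.mem_top (x := v)))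
      rw [map_add, map_add, b1 v1 c1, b2 v2 c2]
  have hsame : ∀ u ∈ J, ∀ u' ∈ J, l u = l u' → W.ρ u = W.ρ u' := fun u hu u' hu' e =>
    hext _ _ (fun v hv => by rw [hv u hu, hv u' hu', e]) fun v hv => by
      rw [hv u hu, hv u' hu']
      simp only [e]
  have h4 : (Eig W.ρ J fun g => (l g ^ 2) ^ 2) ≠ ⊥ := fun e => by
    have := (H.frob J l).trans (H.frob J _)
    rw [e, finrank_bot] at this
    omega
  obtain ⟨v, hv, hv0⟩ := (Submodule.ne_bot_iff _).1 h4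
  obtain ⟨w, hw, hw0⟩ := (Submodule.ne_bot_iff _).1 hE
  refine ⟨y, y1.1, fun e => y2 (Units.ext (smul_left_injective k hw0 ?_)), y1.2, fun u hu => ?_⟩
  · have := hw y y1.1
    rw [e, Module.End.one_apply] at this
    simpa using this.symm
  have h5 : (W.ρ u - (l u : k) • 1) * (W.ρ u - ((l u ^ 2 : kˣ) : k) • 1) = 0 :=
    hext _ _ (fun v hv => by
      simp only [Module.End.mul_apply, LinearMap.sub_apply, LinearMap.smul_apply,
        Module.End.one_apply, map_sub, map_smul, hv u hu, LinearMap.zero_apply]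
      module) fun v hv => by
      simp only [Module.End.mul_apply, LinearMap.sub_apply, LinearMap.smul_apply,
        Module.End.one_apply, hv u hu, LinearMap.zero_apply, sub_self, map_zero]
  have h6 := LinearMap.congr_fun h5 v
  simp only [Module.End.mul_apply, LinearMap.sub_apply, LinearMap.smul_apply,
    Module.End.one_apply, map_sub, map_smul, hv u hu, LinearMap.zero_apply,
    Units.val_pow_eq_pow_val] at h6
  have h7 : ((l u : k) ^ 4 - l u) * ((l u : k) ^ 4 - (l u : k) ^ 2) = 0 :=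
    (smul_eq_zero.1 (show (((l u : k) ^ 4 - l u) * ((l u : k) ^ 4 - (l u : k) ^ 2)) • v = 0 by
      rw [← h6]; module)).resolve_right hv0
  have h8 : l u ^ 3 = 1 := by
    rcases mul_eq_zero.1 h7 with e | e
    · refine Units.ext (mul_left_cancel₀ (l u).ne_zero ?_)
      rw [Units.val_pow_eq_pow_val, Units.val_one]
      linear_combination e
    · have : l u ^ 2 = 1 := Units.ext (mul_left_cancel₀ (pow_ne_zero 2 (l u).ne_zero) (by
        rw [Units.val_pow_eq_pow_val, Units.val_one]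
        linear_combination e))
      rw [H.chr _ this, one_pow]
  rcases cube_cases y2 y3 h8 with e | e | e
  · exact Or.inl (hsame u hu 1 J.one_mem (by rw [e, hl.one]))
  · exact Or.inr (Or.inl (hsame u hu y y1.1 e))
  · exact Or.inr (Or.inr (hsame u hu _ (J.pow_mem y1.1 2) (by rw [e, hl.pow y1.1])))

theorem Hyp.core [IsAlgClosed k] [Finite T] [Group.IsSolvable T] (H : Hyp W J Sm q a d) (h0 : L0)
    (h1 : IE_st) (hfs : FS_st) (hth : TH_st) (hdet : DET_st) [J.Normal] :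
    (q = 2 ∧ a = 1 ∧ d = 2 ∧ Sm 2 ∧ Tau0 W 2) ∨
    (q = 2 ∧ a = 2 ∧ d = 4 ∧ Sm 4 ∧ ∃ s : ℕ, s.Prime ∧ s ≠ 2 ∧
      (∃ y ∈ tor W J H.ab s, W.ρ y ≠ 1) ∧ ∀ S : Subgroup T,
        (∀ t ∈ S, ∀ y ∈ tor W J H.ab s, W.ρ y * W.ρ t = W.ρ t * W.ρ y) → 4 ≤ S.index) ∨
    (q = 2 ∧ a = 3 ∧ (d = 8 ∨ d = 16) ∧ Sm 18 ∧ ∃ y ∈ J, W.ρ y ≠ 1 ∧ W.ρ (y ^ 3) = 1 ∧
      ∀ u ∈ J, W.ρ u = W.ρ 1 ∨ W.ρ u = W.ρ y ∨ W.ρ u = W.ρ (y ^ 2)) ∨
    (q = 3 ∧ a = 1 ∧ d = 3 ∧ Sm 4 ∧ Tau0 W 2) ∨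
    (q = 3 ∧ a = 2 ∧ d = 9 ∧ Sm 16 ∧ Tau0 W 4 ∧ ∃ y ∈ J, W.ρ y = (-1 : k) • 1) := by
  obtain ⟨s, hs, hy⟩ := exists_tor W H.ab H.ne
  have hle : tor W J H.ab s ≤ J := fun _ h => h.1
  have hqd := Nat.le_of_dvd H.dpos H.dvd
  by_cases hA : ∃ l : T → kˣ, IsChar (tor W J H.ab s) l ∧ Eig W.ρ (tor W J H.ab s) l ≠ ⊥ ∧
      ¬ s ∣ finrank k (Eig W.ρ (tor W J H.ab s) l)
  · obtain ⟨l, hl, hE, hn⟩ := hA
    obtain ⟨y, y1, y2, y3, z, D, i, e, z1, -, a1, a2, -, a3, a4⟩ :=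
      H.key hfs hth hdet hs hy _ le_rfl hle hl hE
    obtain ⟨rfl, rfl⟩ := a3 hn
    rw [pow_zero, one_pow, mul_one, mul_one] at a4
    rw [mul_one] at a1
    have b2 := stl_index W h0 (tor W J H.ab s) l
    rw [H.dim] at b2
    obtain ⟨rfl, b3⟩ := numA H.prime.two_le H.apos hqd (H.low _ a4)
      (Nat.pos_of_ne_zero fun e => hE (Submodule.finrank_eq_zero.1 e)) b2
    rcases b3 with ⟨rfl, rfl, b3⟩ | ⟨rfl, rfl, b3⟩
    · refine Or.inl ⟨rfl, rfl, rfl, b3 ▸ a4, ?_⟩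
      obtain ⟨τ, c1, c2, c3, c4⟩ := D.ind h0 h1 a2
      refine ⟨τ, c1, ?_, c3⟩
      have c5 := Rp.dim_pos c1
      by_contra c6
      have c7 : τ.dim = 1 := by omega
      have := H.low _ (H.pre.self τ c5 (fun g hg => c3 g (H.ab g hg)) y1.1 z1 (c4 c7))
      rw [c7] at this
      omega
    · refine Or.inr (Or.inl ⟨rfl, rfl, rfl, b3 ▸ a4, s, hs, fun e => y2 (H.chr _ (e ▸ y3)), hy,
        fun S hS => ?_⟩)
      rw [← b3]
      exact Subgroup.index_antitone fun t ht => mem_stl W hE (hS t ht)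
  push Not at hA
  obtain ⟨l, hl, hE⟩ := H.eigv h0 _ hle
  obtain ⟨y, y1, y2, y3, z, D, i, e, z1, z2, a1, a2, a3, -, a4⟩ :=
    H.key hfs hth hdet hs hy _ le_rfl hle hl hE
  have hsq : s ≠ q := fun e => y2 (H.chr _ (e ▸ y3))
  have b1 : s ∣ 2 * a := by
    rw [← H.dim]
    exact h0.dec W.ρ (tor W J H.ab s) s (fun a ha b hb v _ =>
      LinearMap.congr_fun (comm_of_triv W H.ab ha.1 hb.1) v)
      (fun a ha => ⟨s, H.cast s hs hsq, ha.2⟩) hA
  have b2 := stl_index W h0 (tor W J H.ab s) l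
  rw [H.dim] at b2
  by_cases hq : q = 2
  · subst hq
    obtain ⟨rfl, rfl, c1, c2⟩ := numC hs hsq H.dvd H.dpos (H.low _ a4) a3 b2 b1
      (H.two h0 _ y1 y2).1 (hA l hl hE) (fun e => H.three h0 _ y1 y2 (e ▸ y3)) H.apos
    exact Or.inr (Or.inr (Or.inl ⟨rfl, rfl, c1, H.mono _ _ a4 c2, H.t3 h0 hfs hth hdet hy⟩))
  obtain ⟨rfl, rfl, c1, rfl, c2⟩ := numB H.prime hq H.apos hs hsq H.dvd H.dpos (H.low _ a4) a3 b2 b1
  rw [c1] at a1 a4
  obtain ⟨τ, d1, d2, d3, d4⟩ := D.full h0 a1 (by rw [a2]; positivity)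
  have d5 := H.low _ (H.pre.self τ (Rp.dim_pos d1) (fun g hg => d3 g (H.ab g hg)) y1.1 z1 d4)
  rw [a2] at d2
  rcases c2 with ⟨rfl, rfl, c2⟩ | ⟨rfl, rfl, c2, c3⟩
  · rw [c2] at a4 d2
    refine Or.inr (Or.inr (Or.inr (Or.inl ⟨rfl, rfl, rfl, a4, τ, d1, ?_, d3⟩)))
    generalize τ.dim = n at *
    interval_cases n <;> omega
  · rw [c2] at a4 d2
    refine Or.inr (Or.inr (Or.inr (Or.inr ⟨rfl, rfl, rfl, a4, ⟨τ, d1, ?_, d3⟩, y, y1.1, ?_⟩)))
    · by_contra d6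
      have d7 : τ.dim = 3 := by
        generalize τ.dim = n at *
        interval_cases n <;> omega
      have d8 : z = -1 := (sq_eq_one_iff.1 z2).resolve_left z1
      obtain ⟨ε, hε⟩ := hdet τ (MonoidHom.id ℂˣ)
      have d9 := H.low _ (H.pre.self (lin ε) (by rw [lin_dim]; exact one_pos) (fun g hg => by
        rw [lin_rho, hε g 1 (by rw [d3 g (H.ab g hg), Units.val_one, one_smul])]; simp) y1.1
        (c := -1) (by norm_num) (by
          rw [lin_rho, hε y (-1) (by rw [d4, d8]; simp), d7]; norm_num))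
      rw [lin_dim] at d9
      omega
    · have e1 : Eig W.ρ (tor W J H.ab 2) l = ⊤ :=
        Submodule.eq_top_of_finrank_eq (by rw [c3, ← W.dim_def, H.dim])
      have e2 : (l y : k) = -1 := (sq_eq_one_iff.1 (by
        rw [← Units.val_pow_eq_pow_val, y3, Units.val_one])).resolve_left fun e => y2 (Units.ext e)
      refine LinearMap.ext fun v => ?_
      rw [e1.ge (Submodule.mem_top (x := v)) y y1, e2]
      rfl

end Pool.Agent.MP_f0649b_al.Cls
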