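import Pool.Agent.MP_f0649b_al.F.If
import Pool.Agent.MP_f0649b_al.Basic

/-! Eigenspaces of normal subgroups and their lifts to characteristic zero. -/

open Module
open scoped commutatorElement

namespace Pool.Agent.MP_f0649b_al.Cls

open F

section
variable {k T : Type} [Field k] [Group T] (W : Rp k T)

/-- the stabiliser of a character of a normal subgroup -/
def stl (A : Subgroup T) [hA : A.Normal] (l : T → kˣ) : Subgroup T where
  carrier := {t | ∀ a ∈ A, l (t⁻¹ * a * t) = l a}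
  one_mem' := fun a _ => by simp
  mul_mem' := fun {s t} hs ht a ha => by
    have e : (s * t)⁻¹ * a * (s * t) = t⁻¹ * (s⁻¹ * a * s) * t := by group
    rw [e, ht _ (hA.conj_mem' a ha s), hs a ha]
  inv_mem' := fun {t} ht a ha => by
    have := ht _ (hA.conj_mem a ha t)
    rw [inv_inv, ← this]
    congr 1
    group

theorem inv_stl (A : Subgroup T) [hA : A.Normal] (l : T → kˣ) :
    Inv W.ρ (stl A l) (Eig W.ρ A l) := by
  intro g hg v hv a ha
  have e : a * g = g * (g⁻¹ * a * g) := by group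
  rw [← rho_mul, e, rho_mul, hv _ (hA.conj_mem' a ha g), hg a ha, map_smul]

theorem stl_index [Finite T] (h0 : L0) (A : Subgroup T) [A.Normal] (l : T → kˣ) :
    (stl A l).index * finrank k (Eig W.ρ A l) ≤ W.dim := by
  have := h0.sum W.ρ ⊤ (stl A l) ⊤ (Eig W.ρ A l) (fun _ _ _ _ => trivial) le_top le_top
    (inv_stl W A l) (sep_eig (NormBy.of_normal _ A) le_rfl fun _ _ h => h)
  rwa [Subgroup.relIndex_top_right, finrank_top] at this

theorem mem_stl {A : Subgroup T} [hA : A.Normal] {l : T → kˣ} (hE : Eig W.ρ A l ≠ ⊥) {t : T}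
    (ht : ∀ a ∈ A, W.ρ a * W.ρ t = W.ρ t * W.ρ a) : t ∈ stl A l := by
  obtain ⟨v, hv, h0⟩ := (Submodule.ne_bot_iff _).1 hE
  intro a ha
  have h1 := hv _ (hA.conj_mem' a ha t)
  rw [map_mul, map_mul, mul_assoc (W.ρ t⁻¹), ht a ha, ← map_mul, ← map_mul, inv_mul_cancel_left,
    hv a ha] at h1
  exact Units.ext (smul_left_injective k h0 h1).symm

theorem eig_pow {A : Subgroup T} {l : T → kˣ} (hl : IsChar A l) (hE : Eig W.ρ A l ≠ ⊥) {y : T}
    (hy : y ∈ A) {n : ℕ} (hn : W.ρ (y ^ n) = 1) : l y ^ n = 1 := by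
  obtain ⟨v, hv, h0⟩ := (Submodule.ne_bot_iff _).1 hE
  have h1 := hv _ (A.pow_mem hy n)
  rw [hn, hl.pow hy, Module.End.one_apply] at h1
  refine Units.ext (smul_left_injective k h0 ?_)
  simpa using h1.symm

theorem frob_le {q : ℕ} [ExpChar k q] [PerfectRing k q] (Fr : W.V →+ W.V)
    (h1 : Function.Injective Fr) (h2 : ∀ (c : k) v, Fr (c • v) = c ^ q • Fr v)
    (h3 : ∀ g v, Fr (W.ρ g v) = W.ρ g (Fr v)) (A : Subgroup T) (l : T → kˣ) :
    finrank k (Eig W.ρ A l) ≤ finrank k (Eig W.ρ A fun g => l g ^ q) := by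
  let j : Eig W.ρ A l →+ Eig W.ρ A fun g => l g ^ q :=
    { toFun := fun v => ⟨Fr v, fun a ha => by
        rw [← h3, v.2 a ha, h2, Units.val_pow_eq_pow_val]⟩
      map_zero' := Subtype.ext (map_zero Fr)
      map_add' := fun v w => Subtype.ext (map_add Fr _ _) }
  refine finrank_le_finrank_of_rank_le_rank ?_ (rank_lt_aleph0 k _)
  exact lift_rank_le_of_surjective_injective (frobenius k q) j (surjective_frobenius k q)
    (fun v w e => Subtype.ext (h1 (congrArg Subtype.val e))) fun c v => Subtype.ext (h2 c v)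

/-- eigenspaces with distinct eigenvalues of one element -/
theorem eig_sum (h0 : L0) {ι : Type} [Fintype ι] (A : Subgroup T) (l : ι → T → kˣ) {y : T}
    (hy : y ∈ A) (hl : Function.Injective fun i => l i y) (n : ℕ)
    (hn : ∀ i, n ≤ finrank k (Eig W.ρ A (l i))) :
    Fintype.card ι * n ≤ W.dim ∧
      (W.dim ≤ Fintype.card ι * n → ⨆ i, Eig W.ρ A (l i) = ⊤) := by
  have hi : iSupIndep fun i => Eig W.ρ A (l i) :=
    ((Module.End.eigenspaces_iSupIndep (W.ρ y)).comp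
      (f := fun i => (l i y : k)) fun i j e => hl (Units.ext e)).mono fun i v hv =>
        Module.End.mem_eigenspace_iff.2 (hv y hy)
  obtain ⟨a1, a2, a3⟩ := h0.indd _ ⊤ hi fun _ => le_top
  have a4 := a3 n hn
  rw [Nat.card_eq_fintype_card, finrank_top] at a4
  refine ⟨a4, fun h => a2 (le_antisymm a1 ?_)⟩
  rw [finrank_top]
  refine h.trans ?_
  simpa using Finset.card_nsmul_le_sum Finset.univ _ n fun i _ => hn i

end

section
variable {T : Type} [Group T]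

/-- a linear character as a representation -/
noncomputable def lin (ε : T →* ℂˣ) : Rp ℂ T :=
  ⟨ℂ, { toFun := fun x => (ε x : ℂ) • (1 : Module.End ℂ ℂ)
        map_one' := by simp
        map_mul' := fun x y => by simp [smul_smul, mul_comm] }⟩

theorem lin_dim (ε : T →* ℂˣ) : (lin ε).dim = 1 := finrank_self ℂ

theorem lin_rho (ε : T →* ℂˣ) (x : T) : (lin ε).ρ x = (ε x : ℂ) • 1 := rfl

theorem irr_of_dim_one (M : Rp ℂ T) (h : M.dim = 1) : Irr M.ρ := by
  have h1 : IsSimpleModule ℂ M.V := isSimpleModule_iff_finrank_eq_one.2 h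
  exact ⟨Module.nontrivial_of_finrank_pos (R := ℂ) (by rw [← M.dim_def, h]; exact one_pos),
    fun U _ => eq_bot_or_eq_top U⟩

/-- the hypothesis that turns a representation of a subgroup into a weight bound -/
def PreH (J : Subgroup T) (Sm : ℕ → Prop) : Prop :=
  ∀ (U : Type) [Group U] (φ : U →* T), Function.Injective φ → ∀ M : Rp ℂ U, 0 < M.dim →
    (∀ g ∈ ⁅J, J⁆, ∃ u, φ u = g ∧ M.ρ u = 1) →
    (∃ u, φ u ∈ J ∧ ∃ c : ℂ, c ≠ 1 ∧ M.ρ u = c • 1) → Sm (φ.range.index * M.dim ^ 2)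

theorem PreH.self {J : Subgroup T} {Sm : ℕ → Prop} (h : PreH J Sm) (M : Rp ℂ T) (h1 : 0 < M.dim)
    (h2 : ∀ g ∈ ⁅J, J⁆, M.ρ g = 1) {y : T} (hy : y ∈ J) {c : ℂ} (hc : c ≠ 1)
    (h3 : M.ρ y = c • 1) : Sm (M.dim ^ 2) := by
  have := h T (MonoidHom.id T) Function.injective_id M h1 (fun g hg => ⟨g, rfl, h2 g hg⟩)
    ⟨y, hy, c, hc, h3⟩
  rwa [MonoidHom.range_eq_top.2 Function.surjective_id, Subgroup.index_top, one_mul] at this

/-- a lifted representation of a subgroup -/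
structure LD {k : Type} [Field k] (W : Rp k T) (y : T) (z : ℂ) where
  /-- the subgroup -/
  U : Type
  [gp : Group U]
  /-- its embedding -/
  φ : U →* T
  /-- the representation -/
  M : Rp ℂ U
  inj : Function.Injective φ
  ker : ∀ g, W.ρ g = 1 → ∃ u, φ u = g ∧ M.ρ u = 1
  sc : ∃ u, φ u = y ∧ M.ρ u = z • 1

attribute [instance] LD.gp

variable {k : Type} [Field k] {W : Rp k T} {y : T} {z : ℂ}

theorem LD.sm (D : LD W y z) {J : Subgroup T} {Sm : ℕ → Prop} (h : PreH J Sm)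
    (hJ : Triv W.ρ ⁅J, J⁆) (hy : y ∈ J) (hz : z ≠ 1) (hd : 0 < D.M.dim) :
    Sm (D.φ.range.index * D.M.dim ^ 2) := by
  obtain ⟨u, h1, h2⟩ := D.sc
  exact h D.U D.φ D.inj D.M hd (fun g hg => D.ker g (hJ g hg)) ⟨u, by rwa [h1], z, hz, h2⟩

/-- an irreducible constituent when the subgroup is everything -/
theorem LD.full (h0 : L0) (D : LD W y z) (hi : D.φ.range.index = 1) (hd : 0 < D.M.dim) :
    ∃ τ : Rp ℂ T, Irr τ.ρ ∧ τ.dim ≤ D.M.dim ∧ (∀ g, W.ρ g = 1 → τ.ρ g = 1) ∧ τ.ρ y = z • 1 := by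
  have hs : Function.Surjective D.φ := MonoidHom.range_eq_top.1 (Subgroup.index_eq_one.1 hi)
  let e : D.U ≃* T := MulEquiv.ofBijective D.φ ⟨D.inj, hs⟩
  have : Nontrivial D.M.V := Module.nontrivial_of_finrank_pos (R := ℂ) hd
  obtain ⟨S, -, hS⟩ := h0.exi D.M.ρ ⊤ ⊤ top_ne_bot fun _ _ _ _ => trivial
  let π : T →* (⊤ : Subgroup D.U) := (e.symm.trans Subgroup.topEquiv.symm).toMonoidHom
  have hπ : ∀ u (v : S), ((res D.M.ρ ⊤ S hS.2.1).comp π (D.φ u) v : D.M.V) = D.M.ρ u v :=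
    fun u v => by
      change D.M.ρ (e.symm (e u)) v = _
      rw [e.symm_apply_apply]
  refine ⟨⟨S, (res D.M.ρ ⊤ S hS.2.1).comp π⟩, (irr_comp π
    (e.symm.trans Subgroup.topEquiv.symm).surjective _).2 ((irr_res hS.2.1).2 hS),
    S.finrank_le, fun g hg => ?_, ?_⟩
  · obtain ⟨u, rfl, h2⟩ := D.ker g hg
    exact LinearMap.ext fun v => Subtype.ext (by rw [hπ, h2]; rfl)
  · obtain ⟨u, e1, h2⟩ := D.sc
    have h3 : (res D.M.ρ ⊤ S hS.2.1).comp π (D.φ u) = z • 1 :=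
      LinearMap.ext fun v => Subtype.ext (by rw [hπ, h2]; rfl)
    rwa [e1] at h3

/-- an irreducible constituent of an induced linear character -/
theorem LD.ind [Finite T] (h0 : L0) (h1 : IE_st) (D : LD W y z) (hd : D.M.dim = 1) :
    ∃ τ : Rp ℂ T, Irr τ.ρ ∧ τ.dim ≤ D.φ.range.index ∧ (∀ g, W.ρ g = 1 → τ.ρ g = 1) ∧
      (τ.dim = 1 → τ.ρ y = z • 1) := by
  obtain ⟨R, a1, ι, a2, a3, a4, -⟩ := h1 D.φ D.inj D.M (irr_of_dim_one _ hd) 2 Nat.prime_two
  have : Nontrivial D.M.V :=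
    Module.nontrivial_of_finrank_pos (R := ℂ) (by rw [← D.M.dim_def, hd]; exact one_pos)
  obtain ⟨m, hm⟩ := exists_ne (0 : D.M.V)
  have hm' : ι m ≠ 0 := fun e => hm (a2 (by rw [e, map_zero]))
  refine ⟨R, a1, by rwa [hd, mul_one] at a4, fun g hg => ?_, fun h => ?_⟩
  · refine h0.nt R.ρ (MonoidHom.ker W.ρ) a1 _ hm' (fun g hg => ?_) g hg
    obtain ⟨u, rfl, h2⟩ := D.ker g hg
    rw [a3, h2, Module.End.one_apply]
  · obtain ⟨u, e1, h2⟩ := D.sc
    suffices h3 : R.ρ (D.φ u) = z • 1 by rwa [e1] at h3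
    refine LinearMap.ext fun v => ?_
    obtain ⟨c, rfl⟩ := (finrank_eq_one_iff_of_nonzero' _ hm').1 h v
    rw [map_smul, a3, h2]
    simp [smul_comm c z]

theorem exists_LD [IsAlgClosed k] [Finite T] [Group.IsSolvable T] (hfs : FS_st) (hth : TH_st)
    (hdet : DET_st) {s : ℕ} (hs : s.Prime) (S : Subgroup T) (E : Submodule k W.V) (hE : E ≠ ⊥)
    (hI : Inv W.ρ S E) (hK : ∀ g, W.ρ g = 1 → g ∈ S) (hy : y ∈ S) {c : kˣ}
    (hc : ∀ v ∈ E, W.ρ y v = (c : k) • v) (hc1 : c ≠ 1) (hcs : c ^ s = 1) :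
    ∃ (z : ℂ) (D : LD W y z) (i e : ℕ), z ≠ 1 ∧ z ^ s = 1 ∧ D.φ.range.index = S.index * i ∧
      D.M.dim = s ^ e ∧ i * s ^ e ≤ finrank k E ∧ s ^ e ∣ finrank k E ∧
      (¬ s ∣ finrank k E → i = 1) := by
  obtain ⟨θ, hθ⟩ := hth k s hs
  let W' : Rp k S := ⟨E, res W.ρ S E hI⟩
  have hd : 0 < finrank k E := Nat.pos_of_ne_zero fun e => hE (Submodule.finrank_eq_zero.1 e)
  have hθ1 : θ c ≠ 1 := fun e => hc1 (hθ.1 c 1 (by rwa [pow_one]) e)
  have hθs : θ c ^ s = 1 := by rw [← map_pow, hcs, map_one]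
  have hy' : W'.ρ ⟨y, hy⟩ = (c : k) • 1 := LinearMap.ext fun v => Subtype.ext (hc v v.2)
  have hK' : ∀ g (hg : W.ρ g = 1), W'.ρ ⟨g, hK g hg⟩ = ((1 : kˣ) : k) • 1 := fun g hg =>
    LinearMap.ext fun v => Subtype.ext (by
      change W.ρ g v = ((1 : kˣ) : k) • (v : W.V)
      rw [hg, Units.val_one, one_smul, Module.End.one_apply])
  by_cases h : s ∣ finrank k E
  · obtain ⟨U, M, e, a1, a2, a3, a4⟩ := hfs s θ W' hs hθ hd
    refine ⟨θ c, ⟨U, S.subtype.comp U.subtype, M,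
      S.subtype_injective.comp U.subtype_injective, fun g hg => ?_, ?_⟩, U.index, e,
      fun e => hθ1 (Units.ext e), by rw [← Units.val_pow_eq_pow_val, hθs, Units.val_one], ?_,
      a1, a3, a2, fun h' => absurd h h'⟩
    · obtain ⟨hg', e'⟩ := a4 _ _ (hK' g hg)
      exact ⟨⟨_, hg'⟩, rfl, by rw [e', map_one, Units.val_one, one_smul]⟩
    · obtain ⟨hg', e'⟩ := a4 _ _ hy'
      exact ⟨⟨_, hg'⟩, rfl, e'⟩
    · change (S.subtype.comp U.subtype).range.index = _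
      rw [MonoidHom.range_comp, Subgroup.range_subtype,
        Subgroup.index_map_of_injective _ S.subtype_injective, Subgroup.range_subtype, mul_comm]
  · obtain ⟨ε, hε⟩ := hdet W' θ
    refine ⟨(θ c ^ finrank k E : ℂˣ), ⟨S, S.subtype, lin ε, S.subtype_injective, fun g hg => ?_,
      ⟨⟨y, hy⟩, rfl, by rw [lin_rho, hε _ _ hy']; rfl⟩⟩, 1, 0, fun e => hθ1 ?_, ?_, ?_,
      lin_dim ε, hd, one_dvd _, fun _ => rfl⟩
    · exact ⟨⟨g, hK g hg⟩, rfl, by rw [lin_rho, hε _ _ (hK' g hg)]; simp⟩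
    · have e' : θ c ^ finrank k E = 1 := Units.ext e
      have := pow_gcd_eq_one.2 ⟨hθs, e'⟩
      rwa [((Nat.Prime.coprime_iff_not_dvd hs).2 h).gcd_eq_one, pow_one] at this
    · rw [← Units.val_pow_eq_pow_val, ← pow_mul, mul_comm, pow_mul, hθs, one_pow, Units.val_one]
    · change S.subtype.range.index = _
      rw [Subgroup.range_subtype, mul_one]

end

end Pool.Agent.MP_f0649b_al.Cls
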