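import Pool.Agent.MP_f0649b_al.F.Fr

/-! The linear model `Hom(L, k)` of an elementary abelian group with operators. -/

open Module

namespace Pool.Agent.MP_f0649b_al.Cls

open F

section
variable {G X : Type} [Group G] [CommGroup X] [MulDistribMulAction G X]
  {L : Subgroup X} {T : Subgroup G}

/-- the action of `T` on `L` -/
def act (h : SInv T L) (t : T) : Additive L →+ Additive L :=
  MonoidHom.toAdditive
    { toFun := fun x => ⟨(t : G) • (x : X), h t t.2 x x.2⟩
      map_one' := Subtype.ext (smul_one _)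
      map_mul' := fun _ _ => Subtype.ext (smul_mul' _ _ _) }

theorem act_apply (h : SInv T L) (t : T) (x : L) :
    act h t (Additive.ofMul x) = Additive.ofMul ⟨(t : G) • (x : X), h t t.2 x x.2⟩ := rfl

theorem act_mul (h : SInv T L) (s t : T) (x : Additive L) :
    act h (s * t) x = act h s (act h t x) :=
  congrArg Additive.ofMul (Subtype.ext (mul_smul (s : G) (t : G) _))

theorem act_one (h : SInv T L) (x : Additive L) : act h 1 x = x :=
  congrArg Additive.ofMul (Subtype.ext (one_smul G _))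

/-- the representation on additive maps to `k` -/
def hrep (k : Type) [Field k] (h : SInv T L) : Representation k T (Additive L →+ k) where
  toFun t :=
    { toFun := fun φ => φ.comp (act h t⁻¹)
      map_add' := fun _ _ => rfl
      map_smul' := fun _ _ => rfl }
  map_one' := LinearMap.ext fun φ => AddMonoidHom.ext fun x => by
    change φ (act h 1⁻¹ x) = φ x
    rw [inv_one, act_one]
  map_mul' s t := LinearMap.ext fun φ => AddMonoidHom.ext fun x => by
    change φ (act h (s * t)⁻¹ x) = φ (act h t⁻¹ (act h s⁻¹ x))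
    rw [mul_inv_rev, act_mul]

theorem hrep_apply (k : Type) [Field k] (h : SInv T L) (t : T) (φ : Additive L →+ k)
    (x : Additive L) : hrep k h t φ x = φ (act h t⁻¹ x) := rfl

end

section
variable {A : Type} [AddCommGroup A] [Finite A] (q : ℕ) [Fact q.Prime] (k : Type) [Field k]
  [Algebra (ZMod q) k]

theorem hom_dim' [Module (ZMod q) A] (n : ℕ) (hn : Nat.card A = q ^ n) :
    FiniteDimensional k (A →+ k) ∧ finrank k (A →+ k) = n := by
  have : Module.Finite (ZMod q) A := Module.Finite.of_finite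
  have h1 : Nat.card A = q ^ finrank (ZMod q) A := by
    rw [Module.natCard_eq_pow_finrank (K := ZMod q), Nat.card_zmod]
  have h2 : finrank (ZMod q) A = n :=
    Nat.pow_right_injective (Fact.out : q.Prime).two_le (h1.symm.trans hn)
  let e1 : (A →+ k) ≃ₗ[k] (A →ₗ[ZMod q] k) :=
    { AddMonoidHom.toZModLinearMapEquiv q with
      map_smul' := fun _ _ => LinearMap.ext fun _ => rfl }
  let e2 := (Module.finBasis (ZMod q) A).constr (M' := k) k
  let e := e2.trans e1.symm
  exact ⟨e.finiteDimensional, by rw [← e.finrank_eq, Module.finrank_fin_fun, h2]⟩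

theorem hom_dim (hq : ∀ x : A, q • x = 0) (n : ℕ) (hn : Nat.card A = q ^ n) :
    FiniteDimensional k (A →+ k) ∧ finrank k (A →+ k) = n :=
  @hom_dim' A _ _ q _ k _ _ (AddCommGroup.zmodModule hq) n hn

omit [Finite A] in
theorem hom_sep' [Module (ZMod q) A] {x : A} (hx : ∀ φ : A →+ k, φ x = 0) : x = 0 := by
  refine (Module.forall_dual_apply_eq_zero_iff (ZMod q) x).1 fun f => ?_
  have := hx ((algebraMap (ZMod q) k).toAddMonoidHom.comp f.toAddMonoidHom)
  exact (algebraMap (ZMod q) k).injective (by rw [map_zero]; exact this)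

omit [Finite A] in
theorem hom_sep (hq : ∀ x : A, q • x = 0) {x : A} (hx : ∀ φ : A →+ k, φ x = 0) : x = 0 :=
  @hom_sep' A _ q _ k _ _ (AddCommGroup.zmodModule hq) x hx

end

/-- the model: a representation over an algebraically closed field with a Frobenius map -/
theorem model {G X : Type} [Group G] [CommGroup X] [MulDistribMulAction G X]
    (L : Subgroup X) (T : Subgroup G) (q n : ℕ) [Fact q.Prime] (k : Type) [Field k]
    [Algebra (ZMod q) k] [CharP k q] (hT : SInv T L) (hi : IrrL T L) (hc : Nat.card L = q ^ n)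
    (hq : ∀ x ∈ L, x ^ q = 1) :
    ∃ (W : Rp k T) (Fr : W.V →+ W.V), W.dim = n ∧ Function.Injective Fr ∧
      (∀ (c : k) v, Fr (c • v) = c ^ q • Fr v) ∧ (∀ g v, Fr (W.ρ g v) = W.ρ g (Fr v)) ∧
      (∀ g h : T, W.ρ g = W.ρ h ↔ Same L (g : G) h) ∧
      (∀ g : T, W.ρ g = (-1 : k) • 1 → ∀ x ∈ L, (g : G) • x = x⁻¹) ∧
      ∀ J : Subgroup T, J.Normal → (∃ y ∈ J, W.ρ y ≠ 1) → ∀ v, (∀ y ∈ J, W.ρ y v = v) → v = 0 := by
  have hfin : Finite L := Nat.finite_of_card_ne_zero (by
    rw [hc]; exact pow_ne_zero _ (Fact.out : q.Prime).ne_zero)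
  have hq' : ∀ x : Additive L, q • x = 0 := fun x =>
    congrArg Additive.ofMul (Subtype.ext (hq _ (Additive.toMul x).2))
  obtain ⟨hfd, hd⟩ := hom_dim q k hq' n hc
  have hsame : ∀ g h : T, hrep k hT g = hrep k hT h ↔ Same L (g : G) h := by
    intro g h
    constructor
    · intro e x hx
      have h1 : act hT g⁻¹ (act hT h (Additive.ofMul ⟨x, hx⟩)) - Additive.ofMul ⟨x, hx⟩ = 0 := by
        refine hom_sep q k hq' fun φ => ?_
        rw [map_sub, ← hrep_apply, e, hrep_apply, ← act_mul, inv_mul_cancel, act_one, sub_self]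
      have h2 := congrArg (act hT g) (sub_eq_zero.1 h1)
      rw [← act_mul, mul_inv_cancel, act_one] at h2
      exact (congrArg (fun z => ((Additive.toMul z : L) : X)) h2).symm
    · intro e
      refine LinearMap.ext fun φ => AddMonoidHom.ext fun x => ?_
      rw [hrep_apply, hrep_apply]
      congr 1
      have h1 : act hT g (act hT h⁻¹ x) = x := by
        conv_rhs => rw [← act_one hT x, ← mul_inv_cancel h, act_mul]
        exact congrArg Additive.ofMul (Subtype.ext (e _ (Additive.toMul (act hT h⁻¹ x)).2))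
      conv_lhs => rw [← h1, ← act_mul, inv_mul_cancel, act_one]
  refine ⟨⟨Additive L →+ k, hrep k hT⟩,
    { toFun := fun φ => (frobenius k q).toAddMonoidHom.comp φ
      map_zero' := AddMonoidHom.ext fun x => map_zero (frobenius k q)
      map_add' := fun φ ψ => AddMonoidHom.ext fun x => map_add (frobenius k q) _ _ },
    hd, fun φ ψ e => AddMonoidHom.ext fun x => (frobenius k q).injective (DFunLike.congr_fun e x),
    fun c φ => AddMonoidHom.ext fun x => map_mul (frobenius k q) c (φ x), fun _ _ => rfl,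
    hsame, fun g e x hx => ?_, fun J hJ hy => ?_⟩
  · have h1 : act hT g (Additive.ofMul ⟨x, hx⟩) + Additive.ofMul ⟨x, hx⟩ = 0 := by
      refine hom_sep q k hq' fun φ => ?_
      have h2 := DFunLike.congr_fun (LinearMap.congr_fun e φ) (act hT g (Additive.ofMul ⟨x, hx⟩))
      change φ (act hT g⁻¹ _) = (-1 : k) * φ _ at h2
      rw [← act_mul, inv_mul_cancel, act_one] at h2
      rw [map_add, h2]
      ring
    exact eq_inv_of_mul_eq_one_left (congrArg (fun z => ((Additive.toMul z : L) : X)) h1)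
  · let K : Subgroup X :=
      { carrier := {x | ∃ hx : x ∈ L, ∀ φ : Additive L →+ k, (∀ y ∈ J, hrep k hT y φ = φ) →
          φ (Additive.ofMul ⟨x, hx⟩) = 0}
        one_mem' := ⟨L.one_mem, fun φ _ => map_zero φ⟩
        mul_mem' := fun {a b} ⟨ha, ha'⟩ ⟨hb, hb'⟩ => ⟨L.mul_mem ha hb, fun φ hφ => by
          have := map_add φ (Additive.ofMul ⟨a, ha⟩) (Additive.ofMul ⟨b, hb⟩)
          rw [ha' φ hφ, hb' φ hφ, add_zero] at this
          exact this⟩
        inv_mem' := fun {a} ⟨ha, ha'⟩ => ⟨L.inv_mem ha, fun φ hφ => by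
          have := map_neg φ (Additive.ofMul ⟨a, ha⟩)
          rw [ha' φ hφ, neg_zero] at this
          exact this⟩ }
    rcases hi K (fun x hx => hx.1) (fun t ht x ⟨hx, hx'⟩ => ⟨hT t ht x hx, fun φ hφ => by
      have h1 := hx' (hrep k hT (⟨t, ht⟩ : T)⁻¹ φ) fun y hy => by
        have e : y * (⟨t, ht⟩ : T)⁻¹ = (⟨t, ht⟩ : T)⁻¹ * (⟨t, ht⟩ * y * (⟨t, ht⟩ : T)⁻¹) := by
          group
        rw [← rho_mul, e, rho_mul, hφ _ (hJ.conj_mem y hy _)]
      rw [hrep_apply, inv_inv] at h1
      exact h1⟩) with e | e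
    · obtain ⟨y, hy, hne⟩ := hy
      refine absurd ?_ hne
      change hrep k hT y = 1
      rw [← map_one (hrep k hT), hsame]
      intro x hx
      have : (y : G) • x * x⁻¹ ∈ K := ⟨L.mul_mem (hT y y.2 x hx) (L.inv_mem hx), fun φ hφ => by
        have h1 := map_sub φ (act hT y (Additive.ofMul ⟨x, hx⟩)) (Additive.ofMul ⟨x, hx⟩)
        have h2 := DFunLike.congr_fun (hφ y⁻¹ (J.inv_mem hy)) (Additive.ofMul ⟨x, hx⟩)
        rw [hrep_apply, inv_inv] at h2
        rw [h2, sub_self, sub_eq_add_neg] at h1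
        exact h1⟩
      rw [e, Subgroup.mem_bot, mul_inv_eq_one] at this
      rw [this, Subgroup.coe_one, one_smul]
    · intro φ hφ
      refine AddMonoidHom.ext fun x => ?_
      have : ((Additive.toMul x : L) : X) ∈ K := e.ge (Additive.toMul x).2
      exact this.2 φ hφ

end Pool.Agent.MP_f0649b_al.Cls
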