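import Pool.Agent.MP_f0649b_al.F.If2
import Pool.Agent.MP_f0649b_al.Cls.Model
import Pool.Agent.MP_f0649b_al.Cls.Core

/-! The linear classification. -/

open Module
open scoped commutatorElement

namespace Pool.Agent.MP_f0649b_al.Cls

open F

theorem preH {G : Type} [Group G] [Finite G] (hpre : PRE_st) (T J : Subgroup G) [J.Normal]
    (hle : J ≤ T) : PreH (J.subgroupOf T) fun n => Small J (n * T.index) := by
  intro U _ φ hφ M h1 h2 ⟨u, h3, c, h4, h5⟩
  have e : (⁅J.subgroupOf T, J.subgroupOf T⁆ : Subgroup T).map T.subtype = ⁅J, J⁆ := by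
    rw [Subgroup.map_commutator, Subgroup.map_subgroupOf_eq_of_le hle]
  have := (hpre (T.subtype.comp φ) (T.subtype_injective.comp hφ) J M (fun g hg => by
    obtain ⟨g', hg', rfl⟩ := e.ge hg
    obtain ⟨u, rfl, -⟩ := h2 g' hg'
    exact ⟨u, rfl⟩) fun u hu => by
      obtain ⟨g', hg', e'⟩ := e.ge hu
      obtain ⟨u', rfl, h6⟩ := h2 g' hg'
      rwa [← hφ (Subtype.ext e')]).2 h1 ⟨u, h3, c, h4, h5⟩
  rwa [MonoidHom.range_comp, Subgroup.index_map_subtype, mul_right_comm] at this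

theorem class_main (h0 : L0) (hie : IE_st) (hpre : PRE_st) (hfs : FS_st) (hth : TH_st)
    (hdet : DET_st) : CLASS_st := by
  intro G X _ _ _ _ _ L T J q a d h
  have := Fact.mk h.prime
  have := h.nJ
  let k := AlgebraicClosure (ZMod q)
  obtain ⟨W, Fr, a1, a2, a3, a4, a5, a6, a7⟩ := model L T q (2 * a) k h.inv h.irr h.card h.exp
  have b1 : ∀ g : T, W.ρ g = 1 ↔ Same L (g : G) 1 := fun g => by
    rw [← map_one W.ρ, a5]; rfl
  have hi : 0 < T.index := Nat.pos_of_ne_zero Subgroup.index_ne_zero_of_finite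
  have H : Hyp W (J.subgroupOf T) (fun n => Small J (n * T.index)) q a d :=
    { prime := h.prime
      apos := h.apos
      dim := a1
      frob := frob_le W Fr a2 a3 a4
      chr := fun c hc => Units.ext ((frobenius k q).injective (by
        rw [frobenius_def, ← Units.val_pow_eq_pow_val, hc, Units.val_one, map_one]))
      cast := fun s hs hn e => hn
        ((Nat.prime_dvd_prime_iff_eq h.prime hs).1 ((CharP.cast_eq_zero_iff k q s).1 e)).symm
      fix := a7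
      ab := fun g hg => (b1 g).2 (h.ab g (by
        rw [← Subgroup.map_subgroupOf_eq_of_le h.le, ← Subgroup.map_commutator]
        exact ⟨g, hg, rfl⟩))
      ne := by
        obtain ⟨y, h1, h2⟩ := h.ne
        exact ⟨⟨y, h.le h1⟩, h1, fun e => h2 ((b1 _).1 e)⟩
      pre := preH hpre T J h.le
      mono := fun n m h1 h2 => h1.mono (Nat.mul_le_mul_right _ h2)
      low := fun n h1 => Nat.le_of_mul_le_mul_left ((h.low _ h1).trans_eq (mul_comm _ _)) hi
      dvd := h.dvd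
      dpos := h.dpos }
  have ht : ∀ n, Tau0 W n → Tau L T n := fun n ⟨τ, c1, c2, c3⟩ =>
    ⟨τ, c1, c2, fun t ht => c3 t ((b1 t).2 ht)⟩
  rcases H.core h0 hie hfs hth hdet with ⟨c1, c2, c3, c4, c5⟩ |
    ⟨c1, c2, c3, c4, s, c5, c6, ⟨y, c7, c8⟩, c9⟩ | ⟨c1, c2, c3, c4, y, c5, c6, c7, c8⟩ |
    ⟨c1, c2, c3, c4, c5⟩ | ⟨c1, c2, c3, c4, c5, y, c6, c7⟩
  · exact Or.inl ⟨c1, c2, c3, c4, ht _ c5⟩
  · refine Or.inr (Or.inl ⟨c1, c2, c3, c4, s, (tor W _ H.ab s).map T.subtype, c5, c6, ?_, ?_, ?_,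
      ⟨y, ⟨y, c7, rfl⟩, fun e => c8 ((b1 y).2 e)⟩, fun S hS h1 => c9 (S.subgroupOf T) ?_⟩)
    · rintro _ ⟨z, hz, rfl⟩
      exact hz.1
    · rintro t ht _ ⟨z, hz, rfl⟩
      exact ⟨_, (tor_normal W _ H.ab s).conj_mem z hz ⟨t, ht⟩, rfl⟩
    · rintro _ ⟨z, hz, rfl⟩
      exact (b1 _).1 hz.2
    · intro t ht z hz
      rw [← map_mul, ← map_mul, eq_comm, a5]
      exact h1 t ht z ⟨z, hz, rfl⟩
  · refine Or.inr (Or.inr (Or.inl ⟨c1, c2, c3, c4, y, c5, fun e => c6 ((b1 y).2 e), (b1 _).1 c7,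
      fun u hu => ?_⟩))
    have := c8 ⟨u, h.le hu⟩ hu
    simp only [a5] at this
    exact this
  · exact Or.inr (Or.inr (Or.inr (Or.inl ⟨c1, c2, c3, c4, ht _ c5⟩)))
  · exact Or.inr (Or.inr (Or.inr (Or.inr ⟨c1, c2, c3, c4, ht _ c5, y, c6, a6 y c7⟩)))

end Pool.Agent.MP_f0649b_al.Cls
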